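import Pool.Agent.ASE.Stmts9

/-!
# Row CEN: the centralisers in the comparison group
-/

open scoped BigOperators

noncomputable section

namespace Pool.Agent.PP.SE.H2

open Pool.Agent.Helper51_AWC Pool.Agent.Helper79_WRA Pool.Agent.PP Pool.Agent.PP.KF
open Pool.Agent.PP.K9 Pool.Agent.PP.K9.H97 Pool.Agent.PP.H75 Pool.Agent.PP.T3 Pool.Agent.PP.SO
open Pool.Agent.PP.SD Pool.Agent.PP.SE

/-- the order of the preimage of a subgroup of the range -/
theorem card_comap {S T : Type} [Group S] [Group T] [Finite S] (φ : S →* T) (H : Subgroup T)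
    (hH : H ≤ φ.range) : Nat.card (H.comap φ) = Nat.card φ.ker * Nat.card H := by
  let f : H.comap φ →* H := (φ.comp (H.comap φ).subtype).codRestrict H fun x => x.2
  have hf : Function.Surjective f := by
    rintro ⟨y, hy⟩
    obtain ⟨x, rfl⟩ := hH hy
    exact ⟨⟨x, hy⟩, rfl⟩
  have h1 := Subgroup.card_mul_index f.ker
  rw [Subgroup.index_ker, MonoidHom.range_eq_top.2 hf, Subgroup.card_top] at h1
  rw [← h1]
  congr 1
  refine Nat.card_congr ⟨fun x => ⟨(x : H.comap φ), ?_⟩, fun x => ⟨⟨x, ?_⟩, ?_⟩, ?_, ?_⟩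
  · have h2 := x.2
    rw [MonoidHom.mem_ker] at h2 ⊢
    exact congrArg Subtype.val h2
  · rw [Subgroup.mem_comap, MonoidHom.mem_ker.1 x.2]
    exact H.one_mem
  · rw [MonoidHom.mem_ker]
    exact Subtype.ext (MonoidHom.mem_ker.1 x.2)
  · intro x
    rfl
  · intro x
    rfl

/-- a group with an `ℓ`-group acting by conjugation and with the only fixed point `1` -/
theorem card_mod {G : Type} [Group G] [Finite G] {ℓ : ℕ} [Fact ℓ.Prime] {V N : Subgroup G}
    (hV : IsPGroup ℓ V) (hN : ∀ v ∈ V, ∀ x ∈ N, v * x * v⁻¹ ∈ N)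
    (hfix : ∀ x ∈ N, (∀ v ∈ V, v * x = x * v) → x = 1) : Nat.card N ≡ 1 [MOD ℓ] := by
  let act : MulAction V N :=
    { smul := fun v x => ⟨v * x * (v : G)⁻¹, hN v v.2 x x.2⟩
      one_smul := fun x => Subtype.ext (by change ((1 : V) : G) * x * ((1 : V) : G)⁻¹ = x; simp)
      mul_smul := fun v w x => Subtype.ext (by
        change ((v * w : V) : G) * x * ((v * w : V) : G)⁻¹ = v * (w * x * (w : G)⁻¹) * (v : G)⁻¹
        push_cast
        group) }
  have h1 := hV.card_modEq_card_fixedPoints N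
  have h2 : Nat.card (MulAction.fixedPoints V N) = 1 := by
    rw [Nat.card_eq_one_iff_unique]
    refine ⟨⟨?_⟩, ⟨⟨1, ?_⟩⟩⟩
    · have hone : ∀ a : MulAction.fixedPoints V N, ((a : N) : G) = 1 := by
        intro a
        refine hfix a a.1.2 fun v hv => ?_
        have h3 := congrArg (fun y : N => (y : G)) (a.2 ⟨v, hv⟩)
        change v * ((a : N) : G) * v⁻¹ = ((a : N) : G) at h3
        rw [← mul_inv_eq_iff_eq_mul]
        exact h3
      intro a b
      exact Subtype.ext (Subtype.ext ((hone a).trans (hone b).symm))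
    · intro v
      apply Subtype.ext
      change (v : G) * ((1 : N) : G) * (v : G)⁻¹ = ((1 : N) : G)
      simp
  rw [h2] at h1
  exact h1

theorem conj_inl {V₀ S : Type} [CommGroup V₀] [Group S] (φ : S →* MulAut V₀) (y : V₀ ⋊[φ] S)
    (v : V₀) : y * SemidirectProduct.inl v * y⁻¹ = SemidirectProduct.inl (φ y.right v) := by
  rw [mul_inv_eq_iff_eq_mul]
  ext
  · simp only [SemidirectProduct.mul_left, SemidirectProduct.left_inl,
      SemidirectProduct.right_inl, map_one, MulAut.one_apply]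
    exact mul_comm _ _
  · simp only [SemidirectProduct.mul_right, SemidirectProduct.right_inl, mul_one, one_mul]

theorem cen : CenStmt := by
  classical
  intro ℓ hl V₀ S G _ _ _ _ _ _ φ π j hq hc
  have hl0 : 0 < ℓ := hl.out.pos
  have hjinj : Function.Injective j := fun a b h => by rw [← hc.sec a, h, hc.sec]
  have hi : ∀ v, iG j v = j (SemidirectProduct.inl v) := fun _ => rfl
  have hiinj : Function.Injective (iG j) := fun a b h =>
    SemidirectProduct.inl_injective (hjinj h)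
  have hconj : ∀ y v, j y * iG j v * (j y)⁻¹ = iG j (φ y.right v) := by
    intro y v
    rw [hi, hi, ← map_mul, ← map_inv, ← map_mul, conj_inl]
  have hmem : ∀ (W : Subgroup V₀) (x : G), x ∈ CG j W ↔ ∀ w ∈ W, x * iG j w * x⁻¹ = iG j w := by
    intro W x
    unfold CG
    rw [Subgroup.mem_centralizer_iff]
    constructor
    · intro h w hw
      rw [mul_inv_eq_iff_eq_mul]
      exact (h _ ⟨w, hw, rfl⟩).symm
    · rintro h _ ⟨w, hw, rfl⟩
      exact (mul_inv_eq_iff_eq_mul.1 (h w hw)).symm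
  have hbot : ∀ k, π k = 1 → k ∈ CG j ⊤ → k = 1 := by
    intro k hk hkc
    refine hc.fix k hk fun v => ?_
    have := (hmem ⊤ k).1 hkc v (Subgroup.mem_top v)
    rw [mul_inv_eq_iff_eq_mul] at this
    exact this.symm
  have hjC : ∀ (W : Subgroup V₀) y, j y ∈ CG j W ↔ φ y.right ∈ St φ.range W := by
    intro W y
    rw [hmem]
    constructor
    · intro h
      refine ⟨⟨_, rfl⟩, fun w hw => hiinj ?_⟩
      rw [← hconj]
      exact h w hw
    · intro h w hw
      rw [hconj, h.2 w hw]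
  have hx : ∀ (W : Subgroup V₀), ∀ x ∈ CG j W, j (π x) ∈ CG j W ∧
      x * (j (π x))⁻¹ ∈ (π.ker ⊓ CG j W : Subgroup G) := by
    intro W x hxW
    have h1 : j (π x) ∈ CG j W := by
      rw [hmem]
      intro w hw
      have h2 := congrArg (fun z => j (π z)) ((hmem W x).1 hxW w hw)
      simp only [map_mul, map_inv] at h2
      rw [hi, hc.sec] at h2
      exact h2
    refine ⟨h1, ⟨?_, (CG j W).mul_mem hxW ((CG j W).inv_mem h1)⟩⟩
    change x * (j (π x))⁻¹ ∈ π.ker
    rw [MonoidHom.mem_ker, map_mul, map_inv, hc.sec, mul_inv_cancel]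
  have hmap : ∀ W : Subgroup V₀, (CG j W).map π = RS φ ((St φ.range W).comap φ) := by
    intro W
    ext y
    constructor
    · rintro ⟨x, hxW, rfl⟩
      exact (hjC W (π x)).1 (hx W x hxW).1
    · intro hy
      exact ⟨j y, (hjC W y).2 hy, hc.sec y⟩
  have hrg : ∀ W : Subgroup V₀, (iG j).range ≤ CG j W := by
    rintro W _ ⟨v, rfl⟩
    rw [hmem]
    intro w _
    rw [← map_mul, ← map_inv, ← map_mul, mul_inv_cancel_comm]
  have hnorm : ∀ (W : Subgroup V₀), ∀ v ∈ (iG j).range, ∀ x ∈ (π.ker ⊓ CG j W : Subgroup G),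
      v * x * v⁻¹ ∈ (π.ker ⊓ CG j W : Subgroup G) := by
    intro W v hv x hx
    exact ⟨(MonoidHom.normal_ker π).conj_mem x hx.1 v,
      (CG j W).mul_mem ((CG j W).mul_mem (hrg W hv) hx.2) ((CG j W).inv_mem (hrg W hv))⟩
  have hpg : IsPGroup ℓ (iG j).range := by
    rintro ⟨_, v, rfl⟩
    refine ⟨1, Subtype.ext ?_⟩
    change (iG j v) ^ ℓ ^ 1 = 1
    rw [pow_one, ← map_pow, hq.ex, map_one]
  have hKW : ∀ W : Subgroup V₀, KW π j W ≡ 1 [MOD ℓ] := by
    intro W
    refine card_mod hpg (hnorm W) fun x hx h => ?_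
    refine hc.fix x hx.1 fun v => ?_
    exact h _ ⟨v, rfl⟩
  have hKT : KW π j ⊤ = 1 := by
    unfold KW
    have : (π.ker ⊓ CG j ⊤ : Subgroup G) = ⊥ := by
      rw [eq_bot_iff]
      intro k hk
      exact hbot k hk.1 hk.2
    rw [this, Subgroup.card_bot]
  have hcard : ∀ W : Subgroup V₀, Nat.card (CG j W) =
      ℓ ^ 2 * Nat.card ((St φ.range W).comap φ) * KW π j W := by
    intro W
    have e : CG j W ≃ (V₀ × (St φ.range W).comap φ) × (π.ker ⊓ CG j W : Subgroup G) :=
      { toFun := fun x => ((((π (x : G)).left, ⟨(π (x : G)).right,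
          (hjC W (π x)).1 (hx W x x.2).1⟩)), ⟨x * (j (π (x : G)))⁻¹, (hx W x x.2).2⟩)
        invFun := fun t => ⟨(t.2 : G) * j ⟨t.1.1, t.1.2⟩,
          (CG j W).mul_mem t.2.2.2 ((hjC W ⟨t.1.1, t.1.2⟩).2 t.1.2.2)⟩
        left_inv := fun x => by
          apply Subtype.ext
          change (x : G) * (j (π (x : G)))⁻¹ * j ⟨(π (x : G)).left, (π (x : G)).right⟩ = x
          have : (⟨(π (x : G)).left, (π (x : G)).right⟩ : V₀ ⋊[φ] S) = π (x : G) := rfl
          rw [this, inv_mul_cancel_right]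
        right_inv := fun t => by
          have h1 : π ((t.2 : G) * j ⟨t.1.1, t.1.2⟩) = ⟨t.1.1, t.1.2⟩ := by
            rw [map_mul, hc.sec, (MonoidHom.mem_ker).1 t.2.2.1, one_mul]
          refine Prod.ext (Prod.ext ?_ (Subtype.ext ?_)) (Subtype.ext ?_)
          · change (π ((t.2 : G) * j ⟨t.1.1, t.1.2⟩)).left = t.1.1
            rw [h1]
          · change (π ((t.2 : G) * j ⟨t.1.1, t.1.2⟩)).right = t.1.2
            rw [h1]
          · change (t.2 : G) * j ⟨t.1.1, t.1.2⟩ * (j (π ((t.2 : G) * j ⟨t.1.1, t.1.2⟩)))⁻¹ = t.2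
            rw [h1, mul_inv_cancel_right] }
    rw [Nat.card_congr e, Nat.card_prod, Nat.card_prod, hq.cd]
    rfl
  refine ⟨hiinj, hKT, hconj, fun W => ⟨hjC W, hx W, hmap W, hrg W, hcard W, ?_, ?_, ?_, ?_, ?_⟩⟩
  · exact card_comap φ (St φ.range W) fun x hx => hx.1
  · intro s hs
    rw [Subgroup.mem_comap, MonoidHom.mem_ker.1 hs]
    exact (St φ.range W).one_mem
  · ext s
    rw [Subgroup.mem_comap, MonoidHom.mem_ker]
    constructor
    · intro h
      exact MulEquiv.ext fun v => h.2 v (Subgroup.mem_top v)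
    · intro h
      rw [h]
      exact Subgroup.one_mem _
  · rintro rfl
    rw [Subgroup.eq_top_iff']
    intro s
    rw [Subgroup.mem_comap]
    refine ⟨⟨s, rfl⟩, fun w hw => ?_⟩
    rw [Subgroup.mem_bot.1 hw, map_one]
  · have h1 : 1 ≤ KW π j W := Nat.one_le_iff_ne_zero.2 (Nat.card_pos).ne'
    obtain ⟨q, hq'⟩ := (Nat.modEq_iff_dvd' h1).1 (hKW W).symm
    refine ⟨(q : ℚ), ?_, ?_⟩
    · change ¬ ℓ ∣ ((q : ℚ)).den
      rw [Rat.den_natCast]
      intro h
      exact hl.out.one_lt.ne' (Nat.dvd_one.1 h)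
    · have : KW π j W = 1 + ℓ * q := by omega
      rw [this]
      push_cast
      ring

end Pool.Agent.PP.SE.H2
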