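import Pool.Agent.ASE.Stmts9
import Pool.Agent.Helper43_ASD.CGX

/-!
# Row CGS: the comparison group as a pull back
-/

open scoped BigOperators

noncomputable section

namespace Pool.Agent.PP.SE.H2

open Pool.Agent.Helper51_AWC Pool.Agent.Helper79_WRA Pool.Agent.PP Pool.Agent.PP.KF
open Pool.Agent.PP.K9 Pool.Agent.PP.K9.H97 Pool.Agent.PP.H75 Pool.Agent.PP.T3 Pool.Agent.PP.SO
open Pool.Agent.PP.SD Pool.Agent.PP.SE

section

variable {V₀ S Γ : Type} [CommGroup V₀] [Group S] [Group Γ] (φ : S →* MulAut V₀)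
  (π₀ : Γ →* V₀ ⋊[φ.range.subtype] φ.range) (j₀ : V₀ ⋊[φ.range.subtype] φ.range →* Γ)

/-- the pull back -/
def Pb : Subgroup (Γ × S) :=
  MonoidHom.eqLocus ((SemidirectProduct.rightHom.comp π₀).comp (MonoidHom.fst Γ S))
    (φ.rangeRestrict.comp (MonoidHom.snd Γ S))

theorem mem_Pb (x : Γ × S) : x ∈ Pb φ π₀ ↔ (π₀ x.1).right = φ.rangeRestrict x.2 := Iff.rfl

/-- the map of the semidirect products -/
def mS : V₀ ⋊[φ] S →* V₀ ⋊[φ.range.subtype] φ.range where
  toFun y := ⟨y.left, φ.rangeRestrict y.right⟩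
  map_one' := by
    ext
    · rfl
    · rw [SemidirectProduct.one_right, map_one]
      rfl
  map_mul' x y := by
    refine SemidirectProduct.ext ?_ ?_
    · rw [SemidirectProduct.mul_left, SemidirectProduct.mul_left]
      rfl
    · rw [SemidirectProduct.mul_right, SemidirectProduct.mul_right, map_mul]

/-- the projection -/
def pG : Pb φ π₀ →* V₀ ⋊[φ] S where
  toFun x := ⟨(π₀ (x : Γ × S).1).left, (x : Γ × S).2⟩
  map_one' := by
    refine SemidirectProduct.ext ?_ ?_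
    · change (π₀ (1 : Γ)).left = 1
      rw [map_one]
      rfl
    · rfl
  map_mul' x y := by
    refine SemidirectProduct.ext ?_ ?_
    · change (π₀ ((x : Γ × S).1 * (y : Γ × S).1)).left = _
      rw [map_mul, SemidirectProduct.mul_left, SemidirectProduct.mul_left]
      have h := (mem_Pb φ π₀ x).1 x.2
      rw [h]
      rfl
    · rfl

/-- the section -/
def sG (hs : ∀ y, π₀ (j₀ y) = y) : V₀ ⋊[φ] S →* Pb φ π₀ where
  toFun y := ⟨(j₀ (mS φ y), y.right), by
    rw [mem_Pb, hs]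
    rfl⟩
  map_one' := by
    refine Subtype.ext (Prod.ext ?_ ?_)
    · change j₀ (mS φ 1) = 1
      rw [map_one, map_one]
    · rfl
  map_mul' x y := by
    refine Subtype.ext (Prod.ext ?_ ?_)
    · change j₀ (mS φ (x * y)) = j₀ (mS φ x) * j₀ (mS φ y)
      rw [map_mul, map_mul]
    · rfl

theorem pG_one {x : Pb φ π₀} (h : pG φ π₀ x = 1) :
    π₀ (x : Γ × S).1 = 1 ∧ (x : Γ × S).2 = 1 := by
  have h1 : (π₀ (x : Γ × S).1).left = 1 := congrArg SemidirectProduct.left h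
  have h2 : (x : Γ × S).2 = 1 := congrArg SemidirectProduct.right h
  refine ⟨SemidirectProduct.ext h1 ?_, h2⟩
  rw [(mem_Pb φ π₀ x).1 x.2, h2, map_one]
  rfl

theorem mem_of_one {g : Γ} (h : π₀ g = 1) : ((g, 1) : Γ × S) ∈ Pb φ π₀ := by
  rw [mem_Pb]
  change (π₀ g).right = φ.rangeRestrict 1
  rw [h, map_one]
  rfl

theorem pG_mk {g : Γ} (h : π₀ g = 1) :
    pG φ π₀ ⟨((g, 1) : Γ × S), mem_of_one φ π₀ h⟩ = 1 := by
  refine SemidirectProduct.ext ?_ rfl
  change (π₀ g).left = 1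
  rw [h]
  rfl

theorem sG_inl (hs : ∀ y, π₀ (j₀ y) = y) (v : V₀) :
    ((sG φ π₀ j₀ hs (SemidirectProduct.inl v) : Pb φ π₀) : Γ × S) =
      (j₀ (SemidirectProduct.inl v), 1) := by
  refine Prod.ext ?_ rfl
  change j₀ (mS φ (SemidirectProduct.inl v)) = j₀ (SemidirectProduct.inl v)
  congr 1
  refine SemidirectProduct.ext rfl ?_
  change φ.rangeRestrict (SemidirectProduct.inl v : V₀ ⋊[φ] S).right = 1
  rw [SemidirectProduct.right_inl, map_one]

end

theorem cgs : CgsStmt := by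
  classical
  intro ℓ hl hl2 V₀ S _ _ _ _ φ hq k U hU hUE
  obtain ⟨Γ, _, _, π₀, j₀, hs, hck, hcen, -, hU'⟩ := SD.H43.cgx ℓ hl2 V₀ hq.ex hq.cd φ.range k
    (fun _ => False) (fun _ _ _ => Iff.rfl) U hU (fun W _ σ hσ => by
      obtain ⟨s, rfl⟩ := hσ
      exact hUE W s)
  have hfG : Finite (Pb φ π₀) := inferInstance
  have hsec : ∀ y, pG φ π₀ (sG φ π₀ j₀ hs y) = y := by
    intro y
    refine SemidirectProduct.ext ?_ rfl
    change (π₀ (j₀ (mS φ y))).left = y.left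
    rw [hs]
    rfl
  have hker : Nat.card (pG φ π₀).ker = Nat.card π₀.ker := by
    refine Nat.card_congr ⟨fun x => ⟨((x : Pb φ π₀) : Γ × S).1, ?_⟩,
      fun g => ⟨⟨((g : Γ), 1), mem_of_one φ π₀ (MonoidHom.mem_ker.1 g.2)⟩, ?_⟩, ?_, ?_⟩
    · exact MonoidHom.mem_ker.2 (pG_one φ π₀ (MonoidHom.mem_ker.1 x.2)).1
    · exact MonoidHom.mem_ker.2 (pG_mk φ π₀ (MonoidHom.mem_ker.1 g.2))
    · intro x
      refine Subtype.ext (Subtype.ext (Prod.ext rfl ?_))
      exact (pG_one φ π₀ (MonoidHom.mem_ker.1 x.2)).2.symm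
    · intro g
      rfl
  refine ⟨Pb φ π₀, inferInstance, hfG, pG φ π₀, sG φ π₀ j₀ hs, ⟨hsec, ?_, ?_⟩, ?_⟩
  · rw [hker]
    exact hck
  · intro x hx hc
    obtain ⟨h1, h2⟩ := pG_one φ π₀ hx
    have h3 : ((x : Pb φ π₀) : Γ × S).1 ∈ (j₀.comp SemidirectProduct.inl).range := by
      apply hcen
      rw [Subgroup.mem_centralizer_iff]
      rintro _ ⟨v, rfl⟩
      have h4 := congrArg (fun z : Pb φ π₀ => (z : Γ × S).1) (hc v)
      simp only [Subgroup.coe_mul, sG_inl, Prod.fst_mul] at h4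
      exact h4
    obtain ⟨v, hv⟩ := h3
    have h4 : v = 1 := by
      have h5 := congrArg π₀ hv
      rw [h1, MonoidHom.comp_apply, hs] at h5
      exact congrArg SemidirectProduct.left h5
    refine Subtype.ext (Prod.ext ?_ h2)
    rw [← hv, h4, map_one]
    rfl
  · intro W hW1 hW2
    have h1 := hU' W hW1 hW2 (fun h => h)
    have h2 : KW (pG φ π₀) (sG φ π₀ j₀ hs) W = Nat.card (π₀.ker ⊓
        Subgroup.centralizer (W.map (j₀.comp SemidirectProduct.inl) : Set Γ) : Subgroup Γ) := by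
      unfold KW
      refine Nat.card_congr ⟨fun x => ⟨((x : Pb φ π₀) : Γ × S).1, ?_, ?_⟩,
        fun g => ⟨⟨((g : Γ), 1), mem_of_one φ π₀ (MonoidHom.mem_ker.1 g.2.1)⟩, ?_, ?_⟩, ?_, ?_⟩
      · exact MonoidHom.mem_ker.2 (pG_one φ π₀ (MonoidHom.mem_ker.1 x.2.1)).1
      · change ((x : Pb φ π₀) : Γ × S).1 ∈
          Subgroup.centralizer (W.map (j₀.comp SemidirectProduct.inl) : Set Γ)
        rw [Subgroup.mem_centralizer_iff]
        rintro _ ⟨v, hv, rfl⟩
        have h3 := Subgroup.mem_centralizer_iff.1 x.2.2 _ ⟨v, hv, rfl⟩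
        have h4 := congrArg (fun z : Pb φ π₀ => (z : Γ × S).1) h3
        simp only [Subgroup.coe_mul, iG, MonoidHom.comp_apply, sG_inl, Prod.fst_mul] at h4
        exact h4
      · exact MonoidHom.mem_ker.2 (pG_mk φ π₀ (MonoidHom.mem_ker.1 g.2.1))
      · change _ ∈ CG (sG φ π₀ j₀ hs) W
        unfold CG
        rw [Subgroup.mem_centralizer_iff]
        rintro _ ⟨v, hv, rfl⟩
        have h3 := Subgroup.mem_centralizer_iff.1 g.2.2 _ ⟨v, hv, rfl⟩
        refine Subtype.ext (Prod.ext ?_ ?_)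
        · simp only [Subgroup.coe_mul, iG, MonoidHom.comp_apply, sG_inl, Prod.fst_mul]
          exact h3
        · simp only [Subgroup.coe_mul, iG, MonoidHom.comp_apply, sG_inl, Prod.snd_mul]
      · intro x
        refine Subtype.ext (Subtype.ext (Prod.ext rfl ?_))
        exact (pG_one φ π₀ (MonoidHom.mem_ker.1 x.2.1)).2.symm
      · intro g
        rfl
    rw [h2]
    exact h1

end Pool.Agent.PP.SE.H2
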