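import Pool.Agent.ASE.Stmts9

/-!
# Row LLW: linear characters of `V₀` which are trivial on a reflection line
-/

open scoped BigOperators

noncomputable section

namespace Pool.Agent.PP.SE.H2

open Pool.Agent.Helper51_AWC Pool.Agent.Helper79_WRA Pool.Agent.PP Pool.Agent.PP.KF
open Pool.Agent.PP.K9 Pool.Agent.PP.K9.H97 Pool.Agent.PP.H75 Pool.Agent.PP.T3 Pool.Agent.PP.SO
open Pool.Agent.PP.SD Pool.Agent.PP.SE

/-- a non trivial character sums to zero over a subgroup -/
theorem sum_zero {V₀ : Type} [CommGroup V₀] (A : Subgroup V₀) [Fintype A] (χ : V₀ →* ℂ) (b : V₀)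
    (hb : b ∈ A) (h1 : χ b ≠ 1) : ∑ x : A, χ x = 0 := by
  have h2 : ∑ x : A, χ ((⟨b, hb⟩ * x : A) : V₀) = ∑ x : A, χ x :=
    Fintype.sum_equiv (Equiv.mulLeft (⟨b, hb⟩ : A)) _ _ fun x => rfl
  have h3 : ∑ x : A, χ ((⟨b, hb⟩ * x : A) : V₀) = χ b * ∑ x : A, χ x := by
    rw [Finset.mul_sum]
    exact Finset.sum_congr rfl fun x _ => by
      rw [Subgroup.coe_mul, map_mul]
  rw [h3] at h2
  have h4 : (χ b - 1) * ∑ x : A, χ x = 0 := by rw [sub_mul, h2, one_mul, sub_self]
  rcases mul_eq_zero.1 h4 with h | h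
  · exact absurd (sub_eq_zero.1 h) h1
  · exact h

/-- the kernel of a projection onto `W` has order `ℓ` -/
theorem card_ker {V₀ : Type} [CommGroup V₀] [Finite V₀] {ℓ : ℕ} (hl : 0 < ℓ)
    (hV : Nat.card V₀ = ℓ ^ 2) (W : Subgroup V₀) (hW : Nat.card W = ℓ) (p : V₀ →* V₀)
    (h1 : ∀ c ∈ W, p c = c) (h2 : ∀ c, p c ∈ W) : Nat.card p.ker = ℓ := by
  have hr : p.range = W := by
    ext x
    constructor
    · rintro ⟨y, rfl⟩
      exact h2 y
    · intro hx
      exact ⟨x, h1 x hx⟩
  have h3 : p.ker.index = ℓ := by rw [Subgroup.index_ker, hr, hW]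
  have h4 := Subgroup.card_mul_index p.ker
  rw [h3, hV, sq] at h4
  exact Nat.eq_of_mul_eq_mul_right hl h4

theorem llw (prb : PrbStmt) : LlwStmt := by
  classical
  intro ℓ hl V₀ _ _ E₀ hq W hW
  obtain ⟨b1, ⟨b2, b2m, b2z⟩, b3, -, b5, -, b7, ⟨-, b8, -⟩, b9, -⟩ := prb ℓ V₀ E₀ hq W
  have b5 := b5 hW
  obtain ⟨hWc, hWn⟩ := hW
  have hl0 : 0 < ℓ := hl.out.pos
  have hl1 : 1 < ℓ := hl.out.one_lt
  have hWb : W ≠ ⊥ := by
    rintro rfl
    rw [Subgroup.card_bot] at hWc
    omega
  have b9 := b9 hWb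
  refine ⟨?_, ?_⟩
  · -- existence
    have hWt : W ≠ ⊤ := by
      rintro rfl
      rw [Subgroup.card_top, hq.cd, sq] at hWc
      have : ℓ * ℓ = ℓ * 1 := by omega
      have := Nat.eq_of_mul_eq_mul_left hl0 this
      omega
    obtain ⟨x, hx⟩ : ∃ x, x ∉ W := by
      by_contra hcon
      push Not at hcon
      exact hWt (Subgroup.eq_top_iff' W |>.2 hcon)
    have hx1 : (QuotientGroup.mk x : V₀ ⧸ W) ≠ 1 := by
      rwa [Ne, QuotientGroup.eq_one_iff]
    obtain ⟨f, hf⟩ := CommGroup.exists_apply_ne_one_of_hasEnoughRootsOfUnity (V₀ ⧸ W) ℂ hx1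
    refine ⟨fun v => ((f (QuotientGroup.mk v) : ℂˣ) : ℂ), ⟨?_, ?_⟩, ?_, x, ?_⟩
    · change ((f (1 : V₀ ⧸ W) : ℂˣ) : ℂ) = 1
      rw [map_one, Units.val_one]
    · intro v w
      change ((f ((v : V₀ ⧸ W) * (w : V₀ ⧸ W)) : ℂˣ) : ℂ) = _
      rw [map_mul, Units.val_mul]
    · intro w hw
      have : (QuotientGroup.mk w : V₀ ⧸ W) = 1 := (QuotientGroup.eq_one_iff w).2 hw
      change ((f (w : V₀ ⧸ W) : ℂˣ) : ℂ) = 1
      rw [this, map_one, Units.val_one]
    · intro h
      exact hf (Units.ext h)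
  · rintro lam ⟨lam1, lamm⟩ hlW ⟨x₀, hx₀⟩
    let L : V₀ →* ℂ := { toFun := lam, map_one' := lam1, map_mul' := lamm }
    have hL : ∀ v, L v = lam v := fun _ => rfl
    have hne : ∀ v, lam v ≠ 0 := by
      intro v h0
      have : lam (v * v⁻¹) = 0 := by rw [lamm, h0, zero_mul]
      rw [mul_inv_cancel, lam1] at this
      exact one_ne_zero this
    have hinv : ∀ v, lam v * lam v⁻¹ = 1 := fun v => by rw [← lamm, mul_inv_cancel, lam1]
    -- (2)
    have c2 : ∀ x, x ∉ W → lam x ≠ 1 := by
      intro x hx h1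
      obtain ⟨h2, -⟩ := b9 x hx
      have h3 : (⊤ : Subgroup V₀) ≤ L.ker := by
        rw [← h2, sup_le_iff]
        refine ⟨fun w hw => hlW w hw, ?_⟩
        rw [Subgroup.zpowers_le]
        exact h1
      exact hx₀ (h3 (Subgroup.mem_top x₀))
    have c2' : ∀ x, pr ℓ E₀ W x = 1 → x ≠ 1 → x ∉ W := by
      intro x hx h1 hxW
      exact h1 ((b1 x hxW).symm.trans hx)
    let p : V₀ →* V₀ := { toFun := pr ℓ E₀ W, map_one' := b2, map_mul' := b2m }
    have hp : ∀ v, p v = pr ℓ E₀ W v := fun _ => rfl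
    have hpk : ∀ v, v ∈ p.ker ↔ pr ℓ E₀ W v = 1 := fun v => by rw [MonoidHom.mem_ker, hp]
    have hcA : Nat.card p.ker = ℓ := card_ker hl0 hq.cd W hWc p b1 b5
    -- the component
    have hcomp : ∀ v, v * (pr ℓ E₀ W v)⁻¹ ∈ p.ker := by
      intro v
      rw [MonoidHom.mem_ker, map_mul, map_inv, hp, hp, b1 _ (b5 v), mul_inv_cancel]
    have hx₀W : x₀ ∉ W := fun h => hx₀ (hlW x₀ h)
    obtain ⟨a, haA, haW⟩ : ∃ a, a ∈ p.ker ∧ a ∉ W := by
      refine ⟨_, hcomp x₀, fun h => hx₀W ?_⟩
      have := W.mul_mem h (b5 x₀)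
      rwa [inv_mul_cancel_right] at this
    have ha1 : a ≠ 1 := fun h => haW (h ▸ W.one_mem)
    have hτA : ∀ τ ∈ St E₀ W, ∀ v ∈ p.ker, (τ : MulAut V₀) v ∈ p.ker := by
      intro τ hτ v hv
      rw [hpk] at hv ⊢
      rw [(b3 τ hτ v).1, hv]
    -- (3)
    have c3 : ∀ τ ∈ St E₀ W, (∀ v ∈ p.ker, lam (τ v) = lam v) → τ = 1 := by
      intro τ hτ h
      have h1 : τ a * a⁻¹ ∈ p.ker := p.ker.mul_mem (hτA τ hτ a haA) (p.ker.inv_mem haA)
      have h2 : lam (τ a * a⁻¹) = 1 := by rw [lamm, h a haA, hinv]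
      have h3 : τ a * a⁻¹ = 1 := by
        by_contra h4
        exact c2 _ (c2' _ ((hpk _).1 h1) h4) h2
      exact (b9 a haW).2 τ hτ (mul_inv_eq_one.1 h3)
    refine ⟨fun x hx h1 => c2 x (c2' x hx h1), fun τ hτ h => c3 τ hτ fun v _ => h v, ?_, ?_⟩
    · intro hn
      have hfin : Finite (St E₀ W) := inferInstance
      have hft : Fintype (St E₀ W) := Fintype.ofFinite _
      have hfA : Fintype p.ker := Fintype.ofFinite _
      refine ⟨?_, ?_⟩
      · intro v hv
        rw [finsum_eq_sum_of_fintype]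
        have h1 : ∀ τ : St E₀ W, lam ((τ : MulAut V₀) v) = 1 := fun τ => by
          rw [τ.2.2 v hv, hlW v hv]
        simp_rw [h1]
        rw [Finset.sum_const, Finset.card_univ, ← Nat.card_eq_fintype_card]
        change nS E₀ W • (1 : ℂ) = _
        rw [hn, nsmul_eq_mul, mul_one, Nat.cast_sub hl1.le, Nat.cast_one]
      · intro v hv
        set b := v * (pr ℓ E₀ W v)⁻¹ with hb
        have hbA : b ∈ p.ker := hcomp v
        have hbW : b ∉ W := fun h => hv (by
          have := W.mul_mem h (b5 v)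
          rwa [hb, inv_mul_cancel_right] at this)
        have hbv : ∀ τ ∈ St E₀ W, lam (τ v) = lam (τ b) := by
          intro τ hτ
          have h1 : v = b * pr ℓ E₀ W v := by rw [hb, inv_mul_cancel_right]
          have h2 : τ v = τ b * pr ℓ E₀ W v := by
            conv_lhs => rw [h1, map_mul, hτ.2 _ (b5 v)]
          rw [h2, lamm, hlW _ (b5 v), mul_one]
        rw [finsum_eq_sum_of_fintype]
        have h1 : ∀ τ : St E₀ W, lam ((τ : MulAut V₀) v) = lam ((τ : MulAut V₀) b) :=
          fun τ => hbv τ τ.2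
        simp_rw [h1]
        -- the injection
        let e : St E₀ W → p.ker := fun τ => ⟨(τ : MulAut V₀) b, hτA τ τ.2 b hbA⟩
        have he : Function.Injective e := by
          intro τ τ' h
          have h2 : (τ : MulAut V₀) b = (τ' : MulAut V₀) b := congrArg Subtype.val h
          have h3 : ((τ' : MulAut V₀)⁻¹ * (τ : MulAut V₀)) b = b := by
            rw [MulAut.mul_apply, h2, MulAut.inv_apply_self]
          have h4 := (b9 b hbW).2 _ ((St E₀ W).mul_mem ((St E₀ W).inv_mem τ'.2) τ.2) h3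
          exact Subtype.ext (inv_mul_eq_one.1 h4).symm
        have h2 : ∑ τ : St E₀ W, lam ((τ : MulAut V₀) b) = ∑ x ∈ Finset.univ.image e, lam x := by
          rw [Finset.sum_image fun x _ y _ h => he h]
        have h3 : Finset.univ.image e = Finset.univ.erase (1 : p.ker) := by
          apply Finset.eq_of_subset_of_card_le
          · intro x hx
            obtain ⟨τ, -, rfl⟩ := Finset.mem_image.1 hx
            refine Finset.mem_erase.2 ⟨fun h => ?_, Finset.mem_univ _⟩
            have h4 : (τ : MulAut V₀) b = 1 := congrArg Subtype.val h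
            have h5 : b = 1 := by
              have := congrArg (fun y => (τ : MulAut V₀)⁻¹ y) h4
              simpa using this
            exact hbW (h5 ▸ W.one_mem)
          · rw [Finset.card_erase_of_mem (Finset.mem_univ _), Finset.card_image_of_injective _ he,
              Finset.card_univ, Finset.card_univ, ← Nat.card_eq_fintype_card,
              ← Nat.card_eq_fintype_card, hcA]
            change ℓ - 1 ≤ nS E₀ W
            rw [hn]
        rw [h2, h3]
        have h4 := sum_zero p.ker L b hbA (c2 b hbW)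
        rw [← Finset.add_sum_erase _ _ (Finset.mem_univ (1 : p.ker))] at h4
        have h5 : L ((1 : p.ker) : V₀) = 1 := by rw [Subgroup.coe_one, map_one]
        rw [h5] at h4
        have h6 : ∑ x ∈ Finset.univ.erase (1 : p.ker), lam x =
            ∑ x ∈ Finset.univ.erase (1 : p.ker), L x := rfl
        rw [h6]
        linear_combination h4
    · intro hn
      by_contra hcon
      push Not at hcon
      apply hn
      have hft : Fintype (St E₀ W) := Fintype.ofFinite _
      have hfA : Fintype p.ker := Fintype.ofFinite _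
      set f : V₀ → ℂ := fun x => ∑ᶠ τ : St E₀ W, lam ((τ : MulAut V₀) x) with hf
      have hfs : ∀ x, f x = ∑ τ : St E₀ W, lam ((τ : MulAut V₀) x) := fun x => by
        rw [hf]
        exact finsum_eq_sum_of_fintype _
      set c := f a with hc
      have hconst : ∀ x ∈ p.ker, x ≠ 1 → f x = c := by
        intro x hx h1
        exact hcon x a (c2' x ((hpk x).1 hx) h1) haW ((hpk x).1 hx) ((hpk a).1 haA)
      have hf1 : f 1 = nS E₀ W := by
        rw [hfs]
        have h1 : ∀ τ : St E₀ W, lam ((τ : MulAut V₀) 1) = 1 := fun τ => by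
          rw [map_one, lam1]
        simp_rw [h1]
        rw [Finset.sum_const, Finset.card_univ, ← Nat.card_eq_fintype_card, nsmul_eq_mul, mul_one]
        rfl
      have hcard : Fintype.card p.ker = ℓ := by rw [← Nat.card_eq_fintype_card, hcA]
      -- the sum of `f`
      have s1 : ∑ x : p.ker, f x = 0 := by
        simp_rw [hfs]
        rw [Finset.sum_comm]
        apply Finset.sum_eq_zero
        intro τ _
        have hm : ((τ : MulAut V₀)⁻¹ : MulAut V₀) a ∈ p.ker :=
          hτA _ ((St E₀ W).inv_mem τ.2) a haA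
        refine sum_zero p.ker (L.comp ((τ : MulAut V₀) : V₀ ≃* V₀).toMonoidHom) _ hm ?_
        change lam ((τ : MulAut V₀) ((τ : MulAut V₀)⁻¹ a)) ≠ 1
        rw [MulAut.apply_inv_self]
        exact c2 a haW
      have s2 : ∑ x : p.ker, f x * lam ((x : V₀)⁻¹) = ℓ := by
        simp_rw [hfs, Finset.sum_mul]
        rw [Finset.sum_comm]
        rw [← Finset.add_sum_erase _ _ (Finset.mem_univ (1 : St E₀ W))]
        have h1 : ∑ τ ∈ Finset.univ.erase (1 : St E₀ W),
            ∑ x : p.ker, lam ((τ : MulAut V₀) x) * lam ((x : V₀)⁻¹) = 0 := by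
          apply Finset.sum_eq_zero
          intro τ hτ
          have hτ1 : (τ : MulAut V₀) ≠ 1 := fun h =>
            (Finset.mem_erase.1 hτ).1 (Subtype.ext h)
          have h2 : ∃ v ∈ p.ker, lam ((τ : MulAut V₀) v) ≠ lam v := by
            by_contra h3
            push Not at h3
            exact hτ1 (c3 τ τ.2 h3)
          obtain ⟨v, hv, hv1⟩ := h2
          let X : V₀ →* ℂ :=
            { toFun := fun x => lam ((τ : MulAut V₀) x) * lam (x⁻¹)
              map_one' := by rw [map_one, inv_one, lam1, mul_one]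
              map_mul' := fun x y => by
                rw [map_mul, lamm, mul_inv, lamm]
                ring }
          refine sum_zero p.ker X v hv fun h => hv1 ?_
          have h4 : lam ((τ : MulAut V₀) v) * lam (v⁻¹) = 1 := h
          calc lam ((τ : MulAut V₀) v) = lam ((τ : MulAut V₀) v) * (lam v * lam v⁻¹) := by
                rw [hinv, mul_one]
            _ = (lam ((τ : MulAut V₀) v) * lam (v⁻¹)) * lam v := by ring
            _ = lam v := by rw [h4, one_mul]
        rw [h1, add_zero]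
        have h3 : ∀ x : p.ker, lam (((1 : St E₀ W) : MulAut V₀) x) * lam ((x : V₀)⁻¹) = 1 :=
          fun x => by
            rw [Subgroup.coe_one, MulAut.one_apply, hinv]
        simp_rw [h3]
        rw [Finset.sum_const, Finset.card_univ, hcard, nsmul_eq_mul, mul_one]
      have e1 : (nS E₀ W : ℂ) + (ℓ - 1) * c = 0 := by
        rw [← Finset.add_sum_erase _ _ (Finset.mem_univ (1 : p.ker))] at s1
        have h1 : ∑ x ∈ Finset.univ.erase (1 : p.ker), f x = (ℓ - 1) * c := by
          have h2 : ∀ x ∈ Finset.univ.erase (1 : p.ker), f x = c := fun x hx =>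
            hconst x x.2 fun h => (Finset.mem_erase.1 hx).1 (Subtype.ext h)
          rw [Finset.sum_congr rfl h2, Finset.sum_const,
            Finset.card_erase_of_mem (Finset.mem_univ _), Finset.card_univ, hcard, nsmul_eq_mul,
            Nat.cast_sub hl1.le, Nat.cast_one]
        rw [h1, Subgroup.coe_one, hf1] at s1
        exact s1
      have e2 : (nS E₀ W : ℂ) - c = ℓ := by
        rw [← Finset.add_sum_erase _ _ (Finset.mem_univ (1 : p.ker))] at s2
        have h1 : ∑ x ∈ Finset.univ.erase (1 : p.ker), f x * lam ((x : V₀)⁻¹) = - c := by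
          have h2 : ∀ x ∈ Finset.univ.erase (1 : p.ker), f x * lam ((x : V₀)⁻¹) =
              c * lam ((x : V₀)⁻¹) := fun x hx => by
            rw [hconst x x.2 fun h => (Finset.mem_erase.1 hx).1 (Subtype.ext h)]
          rw [Finset.sum_congr rfl h2, ← Finset.mul_sum]
          let X : V₀ →* ℂ :=
            { toFun := fun x => lam (x⁻¹)
              map_one' := by rw [inv_one, lam1]
              map_mul' := fun x y => by rw [mul_inv, lamm] }
          have h3 : ∑ x : p.ker, X x = 0 := by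
            refine sum_zero p.ker X a haA fun h => c2 a haW ?_
            have h4 : lam a⁻¹ = 1 := h
            have h5 := hinv a
            rwa [h4, mul_one] at h5
          rw [← Finset.add_sum_erase _ _ (Finset.mem_univ (1 : p.ker))] at h3
          have h5 : X ((1 : p.ker) : V₀) = 1 := by rw [Subgroup.coe_one, map_one]
          rw [h5] at h3
          have h6 : ∑ x ∈ Finset.univ.erase (1 : p.ker), lam ((x : V₀)⁻¹) =
            ∑ x ∈ Finset.univ.erase (1 : p.ker), X x := rfl
          rw [h6]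
          have h7 : ∑ x ∈ Finset.univ.erase (1 : p.ker), X x = -1 := by linear_combination h3
          rw [h7, mul_neg, mul_one]
        rw [h1, Subgroup.coe_one, hf1, inv_one, lam1, mul_one] at s2
        rw [sub_eq_add_neg]
        exact s2
      have e3 : (ℓ : ℂ) * (nS E₀ W : ℂ) = ℓ * ((ℓ - 1 : ℕ) : ℂ) := by
        rw [Nat.cast_sub hl1.le, Nat.cast_one]
        linear_combination e1 + ((ℓ : ℂ) - 1) * e2
      have e4 : ℓ * nS E₀ W = ℓ * (ℓ - 1) := by exact_mod_cast e3
      exact Nat.eq_of_mul_eq_mul_left hl0 e4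

end Pool.Agent.PP.SE.H2
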